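import Pool.Agent.W89.VP.Defs

/-! PV-REF: refinement of two equal products of positive integers. -/

set_option autoImplicit false

namespace Pool.Agent.W505.PV.Ref

open Finset
open Pool.Agent.W89.VP

lemma split {κ : Type} [DecidableEq κ] (W : κ → ℕ) (T : Finset κ) :
    ∀ u : ℕ, u ∣ ∏ l ∈ T, W l → ∃ h : κ → ℕ, u = ∏ l ∈ T, h l ∧ ∀ l ∈ T, h l ∣ W l := by
  induction T using Finset.induction_on with
  | empty =>
    intro u hu
    exact ⟨fun _ => 1, by simpa using hu, by simp⟩
  | insert a T ha ih =>
    intro u hu
    rw [prod_insert ha] at hu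
    obtain ⟨u1, u2, h1, h2, rfl⟩ := exists_dvd_and_dvd_of_dvd_mul hu
    obtain ⟨h, e, hd⟩ := ih u2 h2
    refine ⟨Function.update h a u1, ?_, ?_⟩
    · rw [prod_insert ha, Function.update_self, e]
      congr 1
      refine prod_congr rfl fun l hl => ?_
      rw [Function.update_of_ne]
      rintro rfl
      exact ha hl
    · intro l hl
      rcases mem_insert.mp hl with rfl | hl'
      · rw [Function.update_self]; exact h1
      · rw [Function.update_of_ne]
        · exact hd l hl'
        · rintro rfl
          exact ha hl'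

lemma aux {ι κ : Type} [DecidableEq ι] [Fintype κ] [DecidableEq κ] (U : ι → ℕ)
    (hU : ∀ i, 0 < U i) (s : Finset ι) :
    ∀ W : κ → ℕ, (∀ l, 0 < W l) → ∏ i ∈ s, U i = ∏ l, W l →
      ∃ g : ι → κ → ℕ, (∀ i ∈ s, U i = ∏ l, g i l) ∧ (∀ l, W l = ∏ i ∈ s, g i l) := by
  induction s using Finset.induction_on with
  | empty =>
    intro W _ hE
    rw [prod_empty] at hE
    refine ⟨fun _ _ => 1, by simp, fun l => ?_⟩
    rw [prod_empty]
    exact Nat.eq_one_of_dvd_one (hE ▸ dvd_prod_of_mem W (mem_univ l))
  | insert a s ha ih =>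
    intro W hW hE
    rw [prod_insert ha] at hE
    obtain ⟨h, e, hd⟩ := split W univ (U a) (hE ▸ dvd_mul_right _ _)
    have hh : ∀ l, W l = h l * (W l / h l) := fun l =>
      (Nat.mul_div_cancel' (hd l (mem_univ l))).symm
    have hpos : ∀ l, 0 < W l / h l := by
      intro l
      rcases Nat.eq_zero_or_pos (W l / h l) with h0 | h0
      · have := hh l
        rw [h0, mul_zero] at this
        exact absurd this (hW l).ne'
      · exact h0
    have hE2 : ∏ i ∈ s, U i = ∏ l, W l / h l := by
      have h1 : ∏ l, W l = (∏ l, h l) * ∏ l, W l / h l := by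
        rw [← prod_mul_distrib]
        exact prod_congr rfl fun l _ => hh l
      rw [h1, ← e] at hE
      exact Nat.eq_of_mul_eq_mul_left (hU a) hE
    obtain ⟨g, g1, g2⟩ := ih (fun l => W l / h l) hpos hE2
    refine ⟨Function.update g a h, ?_, ?_⟩
    · intro i hi
      rcases mem_insert.mp hi with rfl | hi'
      · rw [Function.update_self]; exact e
      · rw [Function.update_of_ne]
        · exact g1 i hi'
        · rintro rfl
          exact ha hi'
    · intro l
      rw [prod_insert ha, Function.update_self, hh l, g2 l]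
      congr 1
      refine prod_congr rfl fun i hi => ?_
      rw [Function.update_of_ne]
      rintro rfl
      exact ha hi

theorem main : REFStm := by
  classical
  intro ι κ _ _ U W hU hW hE
  obtain ⟨g, g1, g2⟩ := aux U hU univ W hW hE
  exact ⟨g, fun i => g1 i (mem_univ i), g2⟩

end Pool.Agent.W505.PV.Ref
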