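import Pool.Agent.W89.VP.Defs
import Pool.Agent.Helper112.Arith

/-! PV-VF: basic facts on the coprime part, and the divisor bound. -/

set_option autoImplicit false

namespace Pool.Agent.W505.PV.VF

open Finset
open Pool.Agent.W89.VP

/-- the complementary part -/
def wf (V u : ℕ) : ℕ := ∏ p ∈ u.primeFactors.filter (fun p => p ∣ V), p ^ (u.factorization p)

lemma wf_mul_vf (V u : ℕ) (hu : 1 ≤ u) : wf V u * vf V u = u := by
  unfold wf vf
  rw [prod_filter_mul_prod_filter_not]
  exact Nat.prod_factorization_pow_eq_self (by omega)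

lemma vf_pos (V u : ℕ) : 1 ≤ vf V u := by
  unfold vf
  exact Nat.one_le_iff_ne_zero.mpr (prod_ne_zero_iff.mpr fun p hp =>
    pow_ne_zero _ (Nat.prime_of_mem_primeFactors (mem_filter.mp hp).1).ne_zero)

lemma vf_eq (V u : ℕ) (S : Finset ℕ) (hS : u.primeFactors ⊆ S) :
    vf V u = ∏ p ∈ S.filter (fun p => ¬ p ∣ V), p ^ (u.factorization p) := by
  unfold vf
  refine prod_subset (filter_subset_filter _ hS) fun p hp hp' => ?_
  rw [mem_filter] at hp hp'
  have : p ∉ u.primeFactors := fun h => hp' ⟨h, hp.2⟩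
  rw [← Nat.support_factorization, Finsupp.notMem_support_iff] at this
  rw [this, pow_zero]

lemma vf_mul (V u v : ℕ) (hu : 1 ≤ u) (hv : 1 ≤ v) : vf V (u * v) = vf V u * vf V v := by
  have hu0 : u ≠ 0 := by omega
  have hv0 : v ≠ 0 := by omega
  have h1 : u.primeFactors ⊆ (u * v).primeFactors := by
    rw [Nat.primeFactors_mul hu0 hv0]; exact subset_union_left
  have h2 : v.primeFactors ⊆ (u * v).primeFactors := by
    rw [Nat.primeFactors_mul hu0 hv0]; exact subset_union_right
  rw [vf_eq V u _ h1, vf_eq V v _ h2, ← prod_mul_distrib]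
  unfold vf
  refine prod_congr rfl fun p _ => ?_
  rw [Nat.factorization_mul hu0 hv0, Finsupp.add_apply, pow_add]

lemma vf_one (V : ℕ) : vf V 1 = 1 := by
  unfold vf
  simp

theorem mainVF : VFStm := by
  refine ⟨fun V u hu => ?_, fun V u _ => vf_pos V u, fun V u _ hu => ?_, vf_mul, ?_, ?_⟩
  · exact ⟨wf V u, by rw [mul_comm]; exact (wf_mul_vf V u hu).symm⟩
  · unfold vf
    refine Nat.Coprime.prod_left fun p hp => ?_
    rw [mem_filter] at hp
    exact Nat.Coprime.pow_left _
      ((Nat.Prime.coprime_iff_not_dvd (Nat.prime_of_mem_primeFactors hp.1)).mpr hp.2)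
  · intro V u p hu hp hd
    have h1 : u / vf V u = wf V u :=
      Nat.div_eq_of_eq_mul_left (vf_pos V u) (wf_mul_vf V u hu).symm
    rw [h1] at hd
    unfold wf at hd
    obtain ⟨q, hq, hpq⟩ := (Prime.dvd_finsetProd_iff hp.prime _).mp hd
    rw [mem_filter] at hq
    have h2 := hp.dvd_of_dvd_pow hpq
    have h3 := (Nat.prime_dvd_prime_iff_eq hp (Nat.prime_of_mem_primeFactors hq.1)).mp h2
    rw [h3]
    exact hq.2
  · intro V ι _ u hu
    classical
    have key : ∀ s : Finset ι, 1 ≤ ∏ i ∈ s, u i ∧ vf V (∏ i ∈ s, u i) = ∏ i ∈ s, vf V (u i) := by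
      intro s
      induction s using Finset.induction_on with
      | empty => simp [vf_one]
      | insert a s ha ih =>
        rw [prod_insert ha, prod_insert ha, vf_mul V _ _ (hu a) ih.1, ih.2]
        exact ⟨Nat.one_le_iff_ne_zero.mpr (mul_ne_zero (by have := hu a; omega)
          (by have := ih.1; omega)), rfl⟩
    exact (key univ).2

theorem mainDIV : DIVStm := Pool.Agent.Helper112.divisor_bound

end Pool.Agent.W505.PV.VF
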