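import Pool.Agent.W89.VP.Defs

/-! PV-VINF: few integers up to `N` are composed of primes dividing `V`. -/

set_option autoImplicit false

namespace Pool.Agent.W505.PV.Vinf

open Finset
open Pool.Agent.W89.VP

/-- `m ↦ m ^ (-e)` -/
noncomputable def fe (e : ℝ) : ℕ →* ℝ where
  toFun m := (m : ℝ) ^ (-e)
  map_one' := by
    show ((1 : ℕ) : ℝ) ^ (-e) = 1
    rw [Nat.cast_one, Real.one_rpow]
  map_mul' m n := by
    show ((m * n : ℕ) : ℝ) ^ (-e) = (m : ℝ) ^ (-e) * (n : ℝ) ^ (-e)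
    rw [Nat.cast_mul, Real.mul_rpow (by positivity) (by positivity)]

lemma fe_apply (e : ℝ) (m : ℕ) : fe e m = (m : ℝ) ^ (-e) := rfl

lemma fe_prime (e : ℝ) (he : 0 < e) {p : ℕ} (hp : 2 ≤ p) : fe e p ≤ (2 : ℝ) ^ (-e) := by
  rw [fe_apply]
  exact Real.rpow_le_rpow_of_nonpos (by norm_num) (by exact_mod_cast hp) (by linarith)

lemma two_lt (e : ℝ) (he : 0 < e) : (2 : ℝ) ^ (-e) < 1 :=
  Real.rpow_lt_one_of_one_lt_of_neg (by norm_num) (by linarith)

/-- Rankin's bound -/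
lemma rankin (e : ℝ) (he : 0 < e) (N V : ℕ) (hN : 1 ≤ N) (hV : 1 ≤ V) :
    (((Finset.Icc 1 N).filter (fun u => ∀ p ∈ u.primeFactors, p ∣ V)).card : ℝ) ≤
      (N : ℝ) ^ e * ((1 - (2 : ℝ) ^ (-e))⁻¹) ^ V.primeFactors.card := by
  have h2 := two_lt e he
  have h20 : 0 < (2 : ℝ) ^ (-e) := by positivity
  have hf : ∀ {p : ℕ}, p.Prime → ‖fe e p‖ < 1 := by
    intro p hp
    rw [Real.norm_of_nonneg (by rw [fe_apply]; positivity)]
    exact (fe_prime e he hp.two_le).trans_lt h2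
  obtain ⟨-, hs⟩ :=
    EulerProduct.summable_and_hasSum_factoredNumbers_prod_filter_prime_geometric hf V.primeFactors
  have hs2 : HasSum ((Nat.factoredNumbers V.primeFactors).indicator fun m => fe e m)
      (∏ p ∈ V.primeFactors.filter Nat.Prime, (1 - fe e p)⁻¹) :=
    (hasSum_subtype_iff_indicator (f := fun m => fe e m)).mp hs
  set S := (Finset.Icc 1 N).filter (fun u => ∀ p ∈ u.primeFactors, p ∣ V) with hS
  have hmem : ∀ u ∈ S, u ∈ Nat.factoredNumbers V.primeFactors := by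
    intro u hu
    rw [hS, mem_filter, mem_Icc] at hu
    rw [Nat.mem_factoredNumbers]
    refine ⟨by omega, fun p hp => ?_⟩
    have hp' : p ∈ u.primeFactors := by
      rw [Nat.mem_primeFactorsList'] at hp
      rw [Nat.mem_primeFactors]
      exact hp
    rw [Nat.mem_primeFactors]
    exact ⟨Nat.prime_of_mem_primeFactors hp', hu.2 p hp', by omega⟩
  have hle : ∑ u ∈ S, fe e u ≤ ∏ p ∈ V.primeFactors.filter Nat.Prime, (1 - fe e p)⁻¹ := by
    have h3 := sum_le_hasSum S (fun i _ => Set.indicator_nonneg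
      (fun m _ => by rw [fe_apply]; positivity) i) hs2
    refine le_trans (le_of_eq ?_) h3
    refine sum_congr rfl fun u hu => ?_
    rw [Set.indicator_of_mem (hmem u hu)]
  have hprod : ∏ p ∈ V.primeFactors.filter Nat.Prime, (1 - fe e p)⁻¹ ≤
      ((1 - (2 : ℝ) ^ (-e))⁻¹) ^ V.primeFactors.card := by
    have h4 : V.primeFactors.filter Nat.Prime = V.primeFactors :=
      filter_true_of_mem fun p hp => Nat.prime_of_mem_primeFactors hp
    rw [h4, ← prod_const]
    refine prod_le_prod (fun p hp => ?_) fun p hp => ?_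
    · have := fe_prime e he (Nat.prime_of_mem_primeFactors hp).two_le
      exact inv_nonneg.mpr (by linarith)
    · have := fe_prime e he (Nat.prime_of_mem_primeFactors hp).two_le
      exact inv_anti₀ (by linarith) (by linarith)
  have hNpos : (0 : ℝ) < N := by exact_mod_cast hN
  have hlow : (S.card : ℝ) * (N : ℝ) ^ (-e) ≤ ∑ u ∈ S, fe e u := by
    rw [← nsmul_eq_mul]
    refine card_nsmul_le_sum _ _ _ fun u hu => ?_
    rw [hS, mem_filter, mem_Icc] at hu
    rw [fe_apply]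
    exact Real.rpow_le_rpow_of_nonpos (by exact_mod_cast hu.1.1) (by exact_mod_cast hu.1.2)
      (by linarith)
  have h5 := hlow.trans (hle.trans hprod)
  have h6 : (N : ℝ) ^ e * (N : ℝ) ^ (-e) = 1 := by
    rw [← Real.rpow_add hNpos, add_neg_cancel, Real.rpow_zero]
  calc (S.card : ℝ) = (N : ℝ) ^ e * ((S.card : ℝ) * (N : ℝ) ^ (-e)) := by
        rw [mul_left_comm, h6, mul_one]
    _ ≤ _ := mul_le_mul_of_nonneg_left h5 (by positivity)

lemma two_pow_omega (V : ℕ) (hV : 1 ≤ V) : 2 ^ V.primeFactors.card ≤ V.divisors.card := by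
  rw [Nat.card_divisors (by omega), ← prod_const]
  refine prod_le_prod' fun p hp => ?_
  have := Nat.Prime.factorization_pos_of_dvd (Nat.prime_of_mem_primeFactors hp) (by omega : V ≠ 0)
    (Nat.dvd_of_mem_primeFactors hp)
  omega

theorem main (h : DIVStm) : VINFStm := by
  intro K ε hε
  have he : 0 < ε / 2 := by positivity
  have h2 := two_lt (ε / 2) he
  set B : ℝ := (1 - (2 : ℝ) ^ (-(ε / 2)))⁻¹ with hB
  have hB0 : 0 < B := inv_pos.mpr (by linarith)
  obtain ⟨M, hM⟩ := pow_unbounded_of_one_lt B (by norm_num : (1 : ℝ) < 2)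
  obtain ⟨C, hC, hdiv⟩ := h (ε / (2 * (K + 1) * (M + 1))) (by positivity)
  refine ⟨C ^ M, by positivity, fun N V hN hV hVN => ?_⟩
  have hN1 : (1 : ℝ) ≤ N := by exact_mod_cast hN
  have hV1 : (1 : ℝ) ≤ V := by exact_mod_cast hV
  refine (rankin (ε / 2) he N V hN hV).trans ?_
  rw [← hB]
  have h3 : B ^ V.primeFactors.card ≤ ((2 : ℝ) ^ V.primeFactors.card) ^ M := by
    rw [← pow_mul, mul_comm, pow_mul]
    exact pow_le_pow_left₀ hB0.le hM.le _
  have h4 : (2 : ℝ) ^ V.primeFactors.card ≤ C * (V : ℝ) ^ (ε / (2 * (K + 1) * (M + 1))) := by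
    refine le_trans ?_ (hdiv V hV)
    exact_mod_cast two_pow_omega V hV
  have h5 : (V : ℝ) ^ (ε / (2 * (K + 1) * (M + 1))) ≤ (N : ℝ) ^ (ε / (2 * (M + 1))) := by
    have h6 : (V : ℝ) ≤ (N : ℝ) ^ (K : ℝ) := by
      rw [Real.rpow_natCast]
      exact_mod_cast hVN
    calc (V : ℝ) ^ (ε / (2 * (K + 1) * (M + 1))) ≤
        ((N : ℝ) ^ (K : ℝ)) ^ (ε / (2 * (K + 1) * (M + 1))) :=
          Real.rpow_le_rpow (by positivity) h6 (by positivity)
      _ = (N : ℝ) ^ ((K : ℝ) * (ε / (2 * (K + 1) * (M + 1)))) :=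
          (Real.rpow_mul (by positivity) _ _).symm
      _ ≤ (N : ℝ) ^ (ε / (2 * (M + 1))) := by
          refine Real.rpow_le_rpow_of_exponent_le hN1 ?_
          rw [mul_div_assoc', div_le_div_iff₀ (by positivity) (by positivity)]
          have h7 : (0 : ℝ) ≤ ε * (2 * (M + 1)) := by positivity
          nlinarith
  have h8 : ((N : ℝ) ^ (ε / (2 * (M + 1)))) ^ M ≤ (N : ℝ) ^ (ε / 2) := by
    rw [← Real.rpow_natCast, ← Real.rpow_mul (by positivity)]
    refine Real.rpow_le_rpow_of_exponent_le hN1 ?_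
    rw [div_mul_eq_mul_div, div_le_div_iff₀ (by positivity) (by positivity)]
    nlinarith
  calc (N : ℝ) ^ (ε / 2) * B ^ V.primeFactors.card ≤
      (N : ℝ) ^ (ε / 2) * ((C * (N : ℝ) ^ (ε / (2 * (M + 1)))) ^ M) := by
        refine mul_le_mul_of_nonneg_left (h3.trans ?_) (by positivity)
        refine pow_le_pow_left₀ (by positivity) (h4.trans ?_) M
        exact mul_le_mul_of_nonneg_left h5 hC.le
    _ = C ^ M * ((N : ℝ) ^ (ε / 2) * ((N : ℝ) ^ (ε / (2 * (M + 1)))) ^ M) := by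
        rw [mul_pow]; ring
    _ ≤ C ^ M * ((N : ℝ) ^ (ε / 2) * (N : ℝ) ^ (ε / 2)) := by gcongr
    _ = C ^ M * (N : ℝ) ^ ε := by
        rw [← Real.rpow_add (by positivity)]
        congr 2
        ring

end Pool.Agent.W505.PV.Vinf
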